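import Mathlib
import Pool.Agent.H67.Cliff

/-!
Pozhidaev's conjecture for odd `n`: the simple `n`-Lie algebra `L_{n+1}` embeds in `A⁻` for the
Clifford algebra `A` of an `(n+1)`-dimensional nondegenerate quadratic space.  With the chirality
idempotents `p, q` and `n = 2m+1`, `e_j ↦ s γ_j (α_j p + β_j q)` where
`∏ (α_j X + β_j) = X^m (X² - 1)`.
-/

namespace Pool.Agent.Results.MP_2df8e9_al.Embed

open Equiv Finset Polynomial Pool.Agent.H67.Cliff

universe u

section
variable (F : Type u) [Field F]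

def al (m j : ℕ) : F := if j < m then 1 else if j < 2 * m then 0 else 1
def be (m j : ℕ) : F := if j < m then 0 else if j ≤ 2 * m then 1 else -1

theorem total (m : ℕ) : ∏ j : Fin (2 * m + 1 + 1), (C (al F m j) * X + C (be F m j)) =
    X ^ m * (X + 1) * (X - 1) := by
  rw [Fin.prod_univ_eq_prod_range (fun j => C (al F m j) * X + C (be F m j)), prod_range_succ,
    prod_range_succ]
  have h1 : ∏ j ∈ range (2 * m), (C (al F m j) * X + C (be F m j)) = X ^ m := by
    have e1 : ∀ j ∈ range m, C (al F m j) * X + C (be F m j) = X := by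
      intro j hj
      simp [al, be, mem_range.1 hj]
    have e2 : ∀ j ∈ range m, C (al F m (m + j)) * X + C (be F m (m + j)) = 1 := by
      intro j hj
      have := mem_range.1 hj
      simp [al, be, show m + j < 2 * m by omega, show m + j ≤ 2 * m by omega]
    rw [two_mul, prod_range_add, prod_congr rfl e1, prod_congr rfl e2]
    simp
  rw [h1]
  simp [al, be, show ¬ 2 * m < m by omega, show ¬ 2 * m + 1 < m by omega, sub_eq_add_neg]

theorem coeffs (m : ℕ) (i : Fin (2 * m + 1 + 1)) :
    (∏ k : Fin (2 * m + 1), (C (al F m (i.succAbove k)) * X + C (be F m (i.succAbove k)))).coeff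
      (m + 1) = al F m i ∧
    (∏ k : Fin (2 * m + 1), (C (al F m (i.succAbove k)) * X + C (be F m (i.succAbove k)))).coeff
      m = -be F m i := by
  have h := total F m
  rw [Fin.prod_univ_succAbove _ i] at h
  generalize (∏ k : Fin (2 * m + 1), (C (al F m (i.succAbove k)) * X +
    C (be F m (i.succAbove k)))) = p at h
  have e : (X ^ m * (X + 1) * (X - 1) : F[X]) = X ^ (m + 2) - X ^ m := by ring
  by_cases h1 : (i : ℕ) < m
  · simp only [al, be, h1, if_true, map_one, one_mul, map_zero, add_zero, e] at h ⊢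
    rw [← coeff_X_mul p (m + 1), ← coeff_X_mul p m, h]
    simp [coeff_X_pow]
    omega
  by_cases h2 : (i : ℕ) < 2 * m
  · simp only [al, be, h1, h2, h2.le, if_true, if_false, map_one, one_mul, map_zero, zero_mul,
      zero_add, e] at h ⊢
    simp [h, coeff_X_pow]
  by_cases h3 : (i : ℕ) ≤ 2 * m
  · simp only [al, be, h1, h2, h3, if_true, if_false, map_one, one_mul] at h ⊢
    have : p = X ^ (m + 1) - X ^ m :=
      mul_left_cancel₀ (X_add_C_ne_zero (1 : F)) (by rw [map_one, h]; ring)
    simp [this, coeff_X_pow]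
  · simp only [al, be, h1, h2, h3, if_false, map_one, one_mul, map_neg] at h ⊢
    have : p = X ^ (m + 1) + X ^ m :=
      mul_left_cancel₀ (X_sub_C_ne_zero (1 : F)) (by rw [map_one, sub_eq_add_neg, h]; ring)
    simp [this, coeff_X_pow]

theorem ne_zero (m j : ℕ) : al F m j ≠ 0 ∨ be F m j ≠ 0 := by
  unfold al be
  split_ifs <;> simp_all

end

def E (m : ℕ) : Finset (Fin (2 * m + 1)) := {k | Even (k : ℕ)}

theorem card_E (m : ℕ) : #(E m) = m + 1 := by
  rw [← card_range (m + 1)]
  refine (card_bij (fun j hj => ⟨2 * j, by have := mem_range.1 hj; omega⟩) ?_ ?_ ?_).symm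
  · intro j hj; simp [E]
  · intro j _ k _ h; simpa using h
  · intro k hk
    obtain ⟨r, hr⟩ : Even (k : ℕ) := by simpa [E] using hk
    have := k.2
    exact ⟨r, mem_range.2 (by omega), Fin.ext (by simp; omega)⟩

theorem main {F A : Type u} [Field F] [CharZero F] [IsAlgClosed F] [Ring A] [Algebra F A]
    [Nontrivial A] (m : ℕ) (hm : 1 ≤ m) (γ : Fin (2 * m + 1 + 1) → A) (hγ : Anti γ)
    (h1 : ∀ j, γ j * γ j = 1) : ∃ e : Fin (2 * m + 1 + 1) → A, LinearIndependent F e ∧
      ∀ i : Fin (2 * m + 1 + 1), ∑ σ : Perm (Fin (2 * m + 1)), (Perm.sign σ : ℤ) •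
        P (fun k => e (i.succAbove (σ k))) = (-1 : F) ^ (2 * m + 1 + i) • e i := by
  obtain ⟨r, hr⟩ := sq γ hγ h1
  obtain ⟨κ, hκ⟩ := IsAlgClosed.exists_pow_nat_eq ((-1 : F) ^ r) (n := 2) (by norm_num)
  have hκ0 : κ ≠ 0 := by rintro rfl; simp at hκ; exact absurd hκ.symm (by simp)
  have hom : ∀ i : Fin (2 * m + 1 + 1), P (fun k => γ (i.succAbove k)) =
      (-1 : F) ^ (i : ℕ) • (γ i * P γ) := by
    intro i
    have := congrArg (γ i * ·) (omit_one γ hγ i)
    simp only [← mul_assoc, h1, one_mul, mul_smul_comm] at this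
    rw [this, ← Int.cast_smul_eq_zsmul F]; simp
  have hanti : ∀ i, P γ * γ i = -(γ i * P γ) := by
    intro i
    have h2 := move (γ i) (fun k => γ (i.succAbove k)) fun k =>
      hγ _ _ (Fin.succAbove_ne i k).symm
    rw [hom, mul_smul_comm, smul_mul_assoc, Odd.neg_one_pow ⟨m, rfl⟩, neg_one_smul,
      ← mul_assoc, h1, one_mul, ← smul_neg] at h2
    have h3 := congrArg (γ i * ·) (smul_right_injective A (by simp) h2)
    simp only [mul_neg, ← mul_assoc, h1, one_mul] at h3
    rw [h3, neg_neg]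
  set Γ : A := κ • P γ with hΓ
  have hΓ2 : Γ * Γ = 1 := by
    rw [hΓ, smul_mul_smul_comm, hr, ← pow_two, hκ, ← Int.cast_smul_eq_zsmul F, smul_smul]
    simp [← mul_pow]
  have hΓa : ∀ i, Γ * γ i = -(γ i * Γ) := by
    intro i; rw [hΓ, smul_mul_assoc, hanti, mul_smul_comm, smul_neg]
  set p : A := (2 : F)⁻¹ • (1 + Γ) with hpd
  set q : A := (2 : F)⁻¹ • (1 - Γ) with hqd
  have hΓp : Γ * p = p := by rw [hpd, mul_smul_comm, mul_add, hΓ2, mul_one, add_comm]
  have hΓq : Γ * q = -q := by
    rw [hqd, mul_smul_comm, mul_sub, hΓ2, mul_one, ← smul_neg, neg_sub]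
  have hpq1 : p + q = 1 := by rw [hpd, hqd]; module
  have hp : p * p = p := by
    nth_rewrite 1 [hpd]; rw [smul_mul_assoc, add_mul, hΓp, one_mul]; module
  have hq : q * q = q := by
    nth_rewrite 1 [hqd]; rw [smul_mul_assoc, sub_mul, hΓq, one_mul]; module
  have hpq : p * q = 0 := by rw [hpd, smul_mul_assoc, add_mul, hΓq]; simp
  have hqp : q * p = 0 := by rw [hqd, smul_mul_assoc, sub_mul, hΓp]; simp
  have h2 : ∀ k, p * γ k = γ k * q := by
    intro k
    rw [hpd, hqd, smul_mul_assoc, mul_smul_comm, add_mul, mul_sub, hΓa, one_mul, mul_one,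
      sub_eq_add_neg]
  have h3 : ∀ k, q * γ k = γ k * p := by
    intro k
    rw [hpd, hqd, smul_mul_assoc, mul_smul_comm, sub_mul, mul_add, hΓa, one_mul, mul_one,
      sub_neg_eq_add]
  have hp0 : p ≠ 0 ∧ q ≠ 0 := by
    have a1 : p = 0 → q = 0 := fun h => by
      have := congrArg (γ 0 * ·) (h2 0)
      simpa [h, ← mul_assoc, h1] using this.symm
    have a2 : q = 0 → p = 0 := fun h => by
      have := congrArg (γ 0 * ·) (h3 0)
      simpa [h, ← mul_assoc, h1] using this.symm
    exact ⟨fun h => by simp [h, a1 h] at hpq1, fun h => by simp [h, a2 h] at hpq1⟩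
  set c : ℕ := #{σ : Perm (Fin (2 * m + 1)) | (E m).map σ.toEmbedding = E m} with hc
  have hc0 : (c : F) ≠ 0 := by
    rw [Nat.cast_ne_zero, hc]
    exact card_ne_zero.2 ⟨1, by simp [Perm.one_def]⟩
  have hc' : #{σ : Perm (Fin (2 * m + 1)) | (E m)ᶜ.map σ.toEmbedding = (E m)ᶜ} = c := by
    rw [hc]
    congr 1
    refine filter_congr fun σ _ => ?_
    have : (E m)ᶜ.map σ.toEmbedding = ((E m).map σ.toEmbedding)ᶜ := by ext; simp
    rw [this, compl_inj_iff]
  obtain ⟨s, hs⟩ := IsAlgClosed.exists_pow_nat_eq (-κ / c) (n := 2 * m) (by omega)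
  have hs0 : s ≠ 0 := by
    rintro rfl
    rw [zero_pow (by omega)] at hs
    exact div_ne_zero (neg_ne_zero.2 hκ0) hc0 hs.symm
  set h : Fin (2 * m + 1 + 1) → A := fun j => (s * al F m j) • p + (s * be F m j) • q with hh
  have hcomm : ∀ j k l, γ k * γ l * h j = h j * (γ k * γ l) := by
    intro j k l
    simp only [hh, add_mul, mul_add, smul_mul_assoc, mul_smul_comm, ← mul_assoc, h2, h3]
    simp only [mul_assoc, h2, h3]
  have h1' : ∀ k x, γ k * (γ k * x) = x := fun k x => by rw [← mul_assoc, h1, one_mul]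
  refine ⟨fun j => γ j * h j, ?_, fun i => ?_⟩
  · rw [Fintype.linearIndependent_iff]
    intro g hg
    have key : ∀ k l, k ≠ l → g k • (γ k * h k) + g l • (γ l * h l) = 0 := by
      intro k l hkl
      have e1 : ∀ j, γ k * γ l * (g j • (γ j * h j)) - (g j • (γ j * h j)) * (γ k * γ l) =
          if j = k ∨ j = l then (2 : F) • (γ k * γ l * (g j • (γ j * h j))) else 0 := by
        intro j
        rw [smul_mul_assoc, mul_assoc (γ j), ← hcomm, mul_smul_comm, ← mul_assoc (γ j),
          ← mul_assoc (γ k * γ l)]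
        split_ifs with hj
        · have : γ j * (γ k * γ l) = -(γ k * γ l * γ j) := by
            rcases hj with rfl | rfl
            · rw [mul_assoc, hγ l j hkl.symm, mul_neg, neg_neg]
            · rw [← mul_assoc, hγ j k hkl.symm, neg_mul]
          rw [this, neg_mul]; module
        · rw [not_or] at hj
          rw [← mul_assoc, hγ j k hj.1, neg_mul, mul_assoc (γ k) (γ j), hγ j l hj.2, mul_neg,
            neg_neg, ← mul_assoc, sub_self]
      have e2 := sum_congr (rfl (a := univ)) fun j _ => e1 j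
      rw [sum_sub_distrib, ← mul_sum, ← sum_mul, hg, ← sum_filter,
        show filter (fun j => j = k ∨ j = l) univ = {k, l} by ext; simp, sum_pair hkl,
        ← smul_add, ← mul_add] at e2
      rw [mul_zero, zero_mul, sub_zero, eq_comm, smul_eq_zero] at e2
      have e3 := congrArg (fun x => γ l * (γ k * x)) (e2.resolve_left two_ne_zero)
      generalize g k • (γ k * h k) + g l • (γ l * h l) = z at e3
      simpa only [mul_zero, mul_assoc, h1' k, h1' l] using e3
    intro k
    obtain ⟨l, hl, o, ho, hlo⟩ : ∃ l, k ≠ l ∧ ∃ o, k ≠ o ∧ l ≠ o :=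
      ⟨k.succAbove 0, (Fin.succAbove_ne _ _).symm, k.succAbove ⟨1, by omega⟩,
        (Fin.succAbove_ne _ _).symm, Fin.succAbove_right_injective.ne (by simp [Fin.ext_iff])⟩
    have e4 : (2 * g k) • (γ k * h k) = 0 := by
      linear_combination (norm := module) key k l hl + key k o ho - key l o hlo
    by_contra hk
    have e5 := congrArg (γ k * ·) ((smul_eq_zero.1 e4).resolve_left (mul_ne_zero two_ne_zero hk))
    simp only [← mul_assoc, h1, one_mul, mul_zero] at e5
    have e6 := congrArg (· * p) e5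
    have e7 := congrArg (· * q) e5
    simp [hh, add_mul, hp, hq, hpq, hqp, hp0.1, hp0.2, hs0] at e6 e7
    exact (ne_zero F m k).elim (fun h => h e6) fun h => h e7
  · have e1 : ∀ σ : Perm (Fin (2 * m + 1)), (Perm.sign σ : ℤ) •
        P (fun k => γ (i.succAbove (σ k)) * h (i.succAbove (σ k))) =
        P (fun k => γ (i.succAbove k)) * ((s ^ (2 * m + 1) * ∏ k, if k ∈ E m then
          al F m (i.succAbove (σ k)) else be F m (i.succAbove (σ k))) • p +
          (s ^ (2 * m + 1) * ∏ k, if k ∈ (E m)ᶜ then al F m (i.succAbove (σ k)) else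
            be F m (i.succAbove (σ k))) • q) := by
      intro σ
      rw [prod_e p q hpq1 hp hq hpq hqp _ _ _ (fun k => h2 _) fun k => h3 _,
        perm σ (fun k => γ (i.succAbove k)) (hγ.comp Fin.succAbove_right_injective),
        smul_mul_assoc, smul_smul, ← Units.val_mul, Int.units_mul_self, Units.val_one, one_smul]
      have e : ∀ k : Fin (2 * m + 1), Even (2 * m + 1 + k) ↔ k ∉ E m := by
        intro k; simp [E, parity_simps]
      have e' : s ^ (2 * m + 1) = ∏ _k : Fin (2 * m + 1), s := by simp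
      rw [e', ← prod_mul_distrib, ← prod_mul_distrib]
      congr 3 <;> refine prod_congr rfl fun k _ => ?_ <;> by_cases hk : k ∈ E m <;> simp [e, hk]
    rw [sum_congr rfl fun σ _ => e1 σ, ← mul_sum, sum_add_distrib, ← sum_smul, ← sum_smul,
      ← mul_sum, ← mul_sum, per (fun k => al F m (i.succAbove k)) fun k => be F m (i.succAbove k),
      per (fun k => al F m (i.succAbove k)) fun k => be F m (i.succAbove k), hc', ← hc,
      card_compl, card_E, Fintype.card_fin, show 2 * m + 1 - (m + 1) = m by omega,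
      (coeffs F m i).1, (coeffs F m i).2, hom]
    have e2 : P γ = κ⁻¹ • Γ := by rw [hΓ, smul_smul, inv_mul_cancel₀ hκ0, one_smul]
    rw [e2, pow_succ s, hs, pow_add, Odd.neg_one_pow ⟨m, rfl⟩]
    simp only [hh, smul_mul_assoc, mul_assoc, mul_add, mul_smul_comm, hΓp, hΓq, mul_neg]
    match_scalars <;> field_simp

/-- the alternating sum `[a₁, …, aₙ] = ∑ sgn σ a_{σ 1} ⋯ a_{σ n}` in an associative algebra -/
def stdBracket {A : Type u} [Ring A] {n : ℕ} (a : Fin n → A) : A :=
  ∑ σ : Perm (Fin n), (Perm.sign σ : ℤ) • (List.ofFn fun k => a (σ k)).prod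

/-- `B` is the bracket of `L_{n+1}` on `F^{n+1}`:
`[e₀, …, êᵢ, …, eₙ] = (-1)^(n+i) eᵢ` (indices from `0`). -/
def IsL {F : Type u} [Field F] {n : ℕ}
    (B : (Fin (n + 1) → F) [⋀^Fin n]→ₗ[F] (Fin (n + 1) → F)) : Prop :=
  ∀ i : Fin (n + 1), B (fun k => Pi.single (i.succAbove k) 1) =
    (-1 : F) ^ (n + i) • (Pi.single i 1 : Fin (n + 1) → F)

theorem result (F : Type u) [Field F] [IsAlgClosed F] [CharZero F] (n : ℕ) (hn : 3 ≤ n)
    (hodd : Odd n) (B : (Fin (n + 1) → F) [⋀^Fin n]→ₗ[F] (Fin (n + 1) → F)) (hB : IsL B) :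
    ∃ (A : Type u) (_ : Ring A) (_ : Algebra F A) (φ : (Fin (n + 1) → F) →ₗ[F] A),
      Function.Injective φ ∧ ∀ v, φ (B v) = stdBracket fun k => φ (v k) := by
  obtain ⟨m, rfl⟩ := hodd
  let Q : QuadraticForm F (Fin (2 * m + 1 + 1) → F) := QuadraticMap.weightedSumSquares F fun _ => (1 : F)
  haveI : Invertible (2 : F) := invertibleOfNonzero two_ne_zero
  obtain ⟨e, he, hs⟩ := main (F := F) m (by omega)
    (fun j => CliffordAlgebra.ι Q (Pi.single j 1)) (fun i j hij => by
      refine CliffordAlgebra.ι_mul_ι_comm_of_isOrtho ?_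
      simp [QuadraticMap.IsOrtho, Q, Pi.single_apply, add_mul, mul_add, sum_add_distrib, hij,
        hij.symm]) (fun j => by
      rw [CliffordAlgebra.ι_sq_scalar]
      simp [Q, Pi.single_apply])
  let φ : (Fin (2 * m + 1 + 1) → F) →ₗ[F] CliffordAlgebra Q := Fintype.linearCombination F e
  have hφ : ∀ j, φ (Pi.single j 1) = e j := fun j => by simp [φ]
  refine ⟨CliffordAlgebra Q, inferInstance, inferInstance, φ,
    linearIndependent_iff_injective_fintypeLinearCombination.1 he, fun v => ?_⟩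
  let D := (MultilinearMap.alternatization
    (MultilinearMap.mkPiAlgebraFin F (2 * m + 1) (CliffordAlgebra Q))).compLinearMap φ
  have hD : ∀ v, D v = stdBracket fun k => φ (v k) := by
    intro v
    simp [D, stdBracket, MultilinearMap.alternatization_apply, Units.smul_def]
  rw [← hD]
  refine DFunLike.congr_fun (?_ : φ.compAlternatingMap B = D) v
  refine (Pi.basisFun F _).ext_alternating fun w hw => ?_
  obtain ⟨i, hi⟩ : ∃ i, i ∉ Set.range w := by
    by_contra hcon
    have := Fintype.card_le_of_surjective w fun i => by simpa using not_exists.1 hcon i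
    simp at this
  have hf : ∀ k, ∃ l, i.succAbove l = w k := fun k =>
    Fin.exists_succAbove_eq fun h => hi ⟨k, h⟩
  choose f hf using hf
  have hinj : Function.Injective f := fun a b hab => hw (by rw [← hf, ← hf, hab])
  have e1 : (fun k => Pi.basisFun F _ (w k)) = (fun k => Pi.single (i.succAbove k) (1 : F)) ∘
      Equiv.ofBijective f (Finite.injective_iff_bijective.1 hinj) := by
    funext k; simp [hf]
  rw [e1, AlternatingMap.map_perm, AlternatingMap.map_perm, hD]
  congr 1
  rw [LinearMap.compAlternatingMap_apply, hB, map_smul, hφ, ← hs]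
  simp only [stdBracket, hφ, P]

end Pool.Agent.Results.MP_2df8e9_al.Embed
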